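import Mathlib

set_option autoImplicit false

namespace Pool.Agent.Results.MP_47a88a_co.LowerBound

open Finset

abbrev E3 := EuclideanSpace ℝ (Fin 3)

/-- the closed axis-aligned cube with lowest corner `a` and side length `l` -/
def cube (a : E3) (l : ℝ) : Set E3 := {x | ∀ i, a i ≤ x i ∧ x i ≤ a i + l}

/-- `c`-fatness of a family of objects -/
def Fat {ι : Type} (c : ℕ) (A : ι → Set E3) : Prop :=
  ∀ (a : E3) (l : ℝ), 0 < l → ∃ S : Finset E3, S.card ≤ c ∧
    ∀ i, (A i ∩ cube a l).Nonempty → l ≤ Metric.diam (A i) → ∃ s ∈ S, s ∈ A i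

/-- the intersection graph of a family of objects -/
def interGraph {ι : Type} (A : ι → Set E3) : SimpleGraph ι where
  Adj i j := i ≠ j ∧ (A i ∩ A j).Nonempty
  symm := ⟨fun _ _ h => ⟨h.1.symm, by rw [Set.inter_comm]; exact h.2⟩⟩
  loopless := ⟨fun _ h => h.1 rfl⟩

/-- `H` is a 2-hop spanner of `G` -/
def IsTwoSpanner {ι : Type} (G H : SimpleGraph ι) : Prop :=
  H ≤ G ∧ ∀ x y, H.edist x y ≤ 2 * G.edist x y

/-! ### realising a bipartite relation by convex bodies -/

noncomputable def pt (x y : ℝ) : E3 := !₂[x, y, x ^ 2 - y ^ 2]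
noncomputable def lo : E3 := !₂[0, 0, -10]
noncomputable def hi : E3 := !₂[0, 0, 10]

def L (x y : ℝ) (q : E3) : ℝ := q 2 - 2 * x * q 0 + 2 * y * q 1 + x ^ 2 - y ^ 2

theorem convex_lt (x y : ℝ) : Convex ℝ {q : E3 | L x y q < 0} := by
  intro p hp q hq a b ha hb hab
  simp only [Set.mem_setOf_eq, L, PiLp.add_apply, PiLp.smul_apply, smul_eq_mul] at *
  have : b = 1 - a := by linarith
  subst this
  rcases eq_or_lt_of_le ha with h | h
  · subst h; simpa using hq
  · nlinarith [mul_pos h (neg_pos.2 hp), mul_nonneg hb (neg_pos.2 hq).le]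

theorem convex_gt (x y : ℝ) : Convex ℝ {q : E3 | 0 < L x y q} := by
  intro p hp q hq a b ha hb hab
  simp only [Set.mem_setOf_eq, L, PiLp.add_apply, PiLp.smul_apply, smul_eq_mul] at *
  have : b = 1 - a := by linarith
  subst this
  rcases eq_or_lt_of_le ha with h | h
  · subst h; simpa using hq
  · nlinarith [mul_pos h hp, mul_nonneg hb hq.le]

theorem coord_le {c q : E3} (h : q ∈ Metric.closedBall c 1) (i : Fin 3) : |q i - c i| ≤ 1 := by
  have := PiLp.dist_apply_le q c i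
  rw [Real.dist_eq] at this
  exact this.trans h

theorem pt_mem {x y : ℝ} (hx : x ∈ Set.Icc (0 : ℝ) 1) (hy : y ∈ Set.Icc (0 : ℝ) 1) :
    pt x y ∈ Metric.closedBall (0 : E3) 11 := by
  rw [mem_closedBall_zero_iff, EuclideanSpace.norm_eq, Fin.sum_univ_three]
  apply Real.sqrt_le_iff.2
  refine ⟨by norm_num, ?_⟩
  simp only [pt, Real.norm_eq_abs, sq_abs]
  simp
  obtain ⟨h1, h2⟩ := hx
  obtain ⟨h3, h4⟩ := hy
  have a1 : x ^ 2 ≤ 1 := by nlinarith
  have a2 : y ^ 2 ≤ 1 := by nlinarith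
  nlinarith [sq_nonneg x, sq_nonneg y]

theorem ball_sub {c : E3} (hc : ‖c‖ ≤ 10) : Metric.closedBall c 1 ⊆ Metric.closedBall 0 11 := by
  apply Metric.closedBall_subset_closedBall'
  rw [dist_zero_right]; linarith

theorem lo_norm : ‖lo‖ ≤ 10 := by
  rw [EuclideanSpace.norm_eq, Fin.sum_univ_three]
  apply Real.sqrt_le_iff.2
  simp [lo]

theorem hi_norm : ‖hi‖ ≤ 10 := by
  rw [EuclideanSpace.norm_eq, Fin.sum_univ_three]
  apply Real.sqrt_le_iff.2
  simp [hi]

section Real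
variable {P : Type} (t : P → ℝ) (r : P → P → Prop)

def objA (i : P) : Set E3 :=
  convexHull ℝ (Metric.closedBall lo 1 ∪ {q | ∃ j, r i j ∧ q = pt (t i) (t j)})

def objB (j : P) : Set E3 :=
  convexHull ℝ (Metric.closedBall hi 1 ∪ {q | ∃ i, r i j ∧ q = pt (t i) (t j)})

def obj : P ⊕ P → Set E3
  | Sum.inl i => objA t r i
  | Sum.inr j => objB t r j

variable {t r}

theorem inter_imp (ht : Function.Injective t) (h01 : ∀ i, t i ∈ Set.Icc (0 : ℝ) 1) {i j : P}
    (h : (objA t r i ∩ objB t r j).Nonempty) : r i j := by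
  by_contra hr
  obtain ⟨q, hA, hB⟩ := h
  obtain ⟨a1, a2⟩ := h01 i
  obtain ⟨b1, b2⟩ := h01 j
  have h1 : objA t r i ⊆ {q : E3 | L (t i) (t j) q < 0} := by
    refine convexHull_min ?_ (convex_lt _ _)
    rintro q (hq | ⟨k, hk, rfl⟩)
    · have c0 := abs_le.1 (coord_le hq 0)
      have c1 := abs_le.1 (coord_le hq 1)
      have c2 := abs_le.1 (coord_le hq 2)
      simp [lo] at c0 c1 c2
      simp only [Set.mem_setOf_eq, L]
      nlinarith
    · have hne : t k - t j ≠ 0 := fun h => hr (ht (sub_eq_zero.1 h) ▸ hk)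
      have := sq_pos_of_ne_zero hne
      simp [L, pt]
      nlinarith
  have h2 : objB t r j ⊆ {q : E3 | 0 < L (t i) (t j) q} := by
    refine convexHull_min ?_ (convex_gt _ _)
    rintro q (hq | ⟨k, hk, rfl⟩)
    · have c0 := abs_le.1 (coord_le hq 0)
      have c1 := abs_le.1 (coord_le hq 1)
      have c2 := abs_le.1 (coord_le hq 2)
      simp [hi] at c0 c1 c2
      simp only [Set.mem_setOf_eq, L]
      nlinarith
    · have hne : t k - t i ≠ 0 := fun h => hr (ht (sub_eq_zero.1 h) ▸ hk)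
      have := sq_pos_of_ne_zero hne
      simp [L, pt]
      nlinarith
  have := h1 hA
  have := h2 hB
  simp only [Set.mem_setOf_eq] at *
  linarith

theorem inter_of {i j : P} (h : r i j) : (objA t r i ∩ objB t r j).Nonempty :=
  ⟨pt (t i) (t j), subset_convexHull _ _ (Or.inr ⟨j, h, rfl⟩),
    subset_convexHull _ _ (Or.inr ⟨i, h, rfl⟩)⟩

theorem obj_sub (h01 : ∀ i, t i ∈ Set.Icc (0 : ℝ) 1) (v : P ⊕ P) :
    obj t r v ⊆ Metric.closedBall 0 11 := by
  rcases v with i | j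
  · refine convexHull_min ?_ (convex_closedBall _ _)
    rintro q (hq | ⟨k, -, rfl⟩)
    · exact ball_sub lo_norm hq
    · exact pt_mem (h01 _) (h01 _)
  · refine convexHull_min ?_ (convex_closedBall _ _)
    rintro q (hq | ⟨k, -, rfl⟩)
    · exact ball_sub hi_norm hq
    · exact pt_mem (h01 _) (h01 _)

end Real

/-! ### point-line incidences -/

def inc {F : Type} [Field F] (p l : F × F) : Prop := p.2 = l.1 * p.1 + l.2

theorem line_unique {F : Type} [Field F] {p p' l l' : F × F} (hp : p ≠ p') (h1 : inc p l)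
    (h2 : inc p' l) (h3 : inc p l') (h4 : inc p' l') : l = l' := by
  unfold inc at *
  have hx : p.1 - p'.1 ≠ 0 := by
    intro h
    have h' : p.1 = p'.1 := sub_eq_zero.1 h
    exact hp (Prod.ext h' (by rw [h1, h2, h']))
  have : (l.1 - l'.1) * (p.1 - p'.1) = 0 := by linear_combination -h1 + h2 + h3 - h4
  have h5 : l.1 = l'.1 := sub_eq_zero.1 ((mul_eq_zero.1 this).resolve_right hx)
  refine Prod.ext h5 ?_
  rw [h5] at h1
  linear_combination h3 - h1

theorem count {F : Type} [Field F] [Fintype F] (G H : SimpleGraph ((F × F) ⊕ (F × F)))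
    (hG : ∀ p l, G.Adj (Sum.inl p) (Sum.inr l) ↔ inc p l) (hH : IsTwoSpanner G H) :
    Fintype.card F ^ 3 ≤ 2 * H.edgeSet.ncard := by
  classical
  have key : ∀ p l, inc p l → ∃ d : H.Dart,
      d.toProd = (Sum.inl p, Sum.inr l) ∨
      (∃ p', p ≠ p' ∧ inc p' l ∧ d.toProd = (Sum.inl p, Sum.inl p')) ∨
      (∃ l', l ≠ l' ∧ inc p l' ∧ d.toProd = (Sum.inr l, Sum.inr l')) := by
    intro p l h
    have h1 := hH.2 (Sum.inl p) (Sum.inr l)
    rw [SimpleGraph.edist_eq_one_iff_adj.2 ((hG p l).2 h), mul_one] at h1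
    have h2 : H.edist (Sum.inl p) (Sum.inr l) ≠ ⊤ := ne_top_of_le_ne_top (by decide) h1
    obtain ⟨w, hw⟩ := SimpleGraph.exists_walk_of_edist_ne_top h2
    rw [← hw] at h1
    have h3 : w.length ≤ 2 := by exact_mod_cast h1
    match w, h3 with
    | .cons h .nil, _ => exact ⟨⟨(_, _), h⟩, Or.inl rfl⟩
    | .cons (v := Sum.inl p') h (.cons h' .nil), _ =>
      exact ⟨⟨(_, _), h⟩, Or.inr (Or.inl ⟨p', fun e => h.ne (by rw [e]),
        (hG _ _).1 (hH.1 h'), rfl⟩)⟩
    | .cons (v := Sum.inr l') h (.cons h' .nil), _ =>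
      exact ⟨⟨(_, _), h'.symm⟩, Or.inr (Or.inr ⟨l', fun e => h'.ne (by rw [e]),
        (hG _ _).1 (hH.1 h), rfl⟩)⟩
    | .cons _ (.cons _ (.cons _ _)), h3 => simp at h3
  choose f hf using key
  let g : F × F × F → H.Dart := fun z => f (z.1, z.2.1 * z.1 + z.2.2) z.2 rfl
  have hg : Function.Injective g := by
    rintro ⟨x, l⟩ ⟨x', l'⟩ he
    have a := hf (x, l.1 * x + l.2) l rfl
    have b := hf (x', l'.1 * x' + l'.2) l' rfl
    change f _ _ _ = f _ _ _ at he
    rw [he] at a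
    have i1 : inc (x, l.1 * x + l.2) l := rfl
    have i2 : inc (x', l'.1 * x' + l'.2) l' := rfl
    rcases a with a | ⟨p, n1, j1, a⟩ | ⟨m, n1, j1, a⟩ <;>
      rcases b with b | ⟨p', n2, j2, b⟩ | ⟨m', n2, j2, b⟩ <;> rw [a] at b <;>
      simp only [Prod.mk.injEq, Sum.inl.injEq, Sum.inr.injEq, reduceCtorEq, and_false,
        false_and] at b
    · exact Prod.ext b.1.1 b.2
    · obtain ⟨⟨rfl, b1⟩, rfl⟩ := b
      rw [← b1] at i2
      exact Prod.ext rfl (line_unique n1 i1 j1 i2 j2)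
    · obtain ⟨rfl, rfl⟩ := b
      refine Prod.ext ?_ rfl
      by_contra hne
      exact n1 (line_unique (p := (x, l.1 * x + l.2)) (p' := (x', l.1 * x' + l.2))
        (fun e => hne (Prod.mk.inj e).1) i1 i2 j1 j2)
  have h1 := Fintype.card_le_of_injective g hg
  rw [SimpleGraph.dart_card_eq_twice_card_edges] at h1
  rw [Set.ncard_eq_toFinset_card']
  simpa [pow_succ, mul_assoc, SimpleGraph.edgeFinset] using h1

theorem result : ∀ δ : ℝ, 0 < δ → ∃ c : ℕ, 1 ≤ c ∧ ∀ K : ℝ,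
    ∃ (ι : Type) (_ : Fintype ι) (A : ι → Set E3),
      (∀ i, Convex ℝ (A i) ∧ (∃ z, Metric.closedBall z 1 ⊆ A i) ∧
        A i ⊆ Metric.closedBall 0 11) ∧
      Fat c A ∧
      ∀ H : SimpleGraph ι, IsTwoSpanner (interGraph A) H →
        K * (Fintype.card ι : ℝ) ^ ((3 : ℝ) / 2 - δ) < (H.edgeSet.ncard : ℝ) := by
  intro δ hδ
  refine ⟨2, by norm_num, fun K => ?_⟩
  classical
  -- choose a large prime
  have ht : Filter.Tendsto (fun x : ℝ => x ^ δ) Filter.atTop Filter.atTop :=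
    tendsto_rpow_atTop hδ
  obtain ⟨x0, hx0⟩ := Filter.eventually_atTop.1 (ht.eventually_gt_atTop (8 * |K|))
  obtain ⟨p, hp1, hp⟩ := Nat.exists_infinite_primes (⌈x0⌉₊)
  haveI := Fact.mk hp
  let P := ZMod p × ZMod p
  let e := Fintype.equivFin P
  let t : P → ℝ := fun v => ((e v : ℕ) : ℝ) / Fintype.card P
  have hP : (0 : ℝ) < Fintype.card P := by exact_mod_cast Fintype.card_pos
  have tinj : Function.Injective t := by
    intro u v h
    have := (div_left_inj' hP.ne').1 h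
    exact e.injective (Fin.ext (by exact_mod_cast this))
  have t01 : ∀ i, t i ∈ Set.Icc (0 : ℝ) 1 := fun i =>
    ⟨by positivity, (div_le_one hP).2 (by exact_mod_cast (e i).2.le)⟩
  refine ⟨P ⊕ P, inferInstance, obj t inc, fun v => ⟨?_, ?_, obj_sub t01 v⟩,
    ?_, ?_⟩
  · rcases v with i | j <;> exact convex_convexHull _ _
  · rcases v with i | j
    · exact ⟨lo, Set.subset_union_left.trans (subset_convexHull _ _)⟩
    · exact ⟨hi, Set.subset_union_left.trans (subset_convexHull _ _)⟩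
  · intro a l _
    refine ⟨{lo, hi}, card_le_two, fun v _ _ => ?_⟩
    rcases v with i | j
    · exact ⟨lo, by simp, subset_convexHull _ _ (Or.inl (Metric.mem_closedBall_self zero_le_one))⟩
    · exact ⟨hi, by simp, subset_convexHull _ _ (Or.inl (Metric.mem_closedBall_self zero_le_one))⟩
  · intro H hH
    have h1 := count (interGraph (obj t inc)) H
      (fun p l => ⟨fun h => inter_imp tinj t01 h.2, fun h => ⟨by simp, inter_of h⟩⟩) hH
    rw [ZMod.card] at h1
    have h2 : (p : ℝ) ^ 3 ≤ 2 * (H.edgeSet.ncard : ℝ) := by exact_mod_cast h1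
    have hc : (Fintype.card (P ⊕ P) : ℝ) = 2 * (p : ℝ) ^ 2 := by
      simp [P, ZMod.card]; ring
    rw [hc]
    have hp1' : (1 : ℝ) ≤ p := by exact_mod_cast hp.one_lt.le
    set n : ℝ := 2 * (p : ℝ) ^ 2 with hn
    have hn0 : 0 < n := by positivity
    have hx : x0 ≤ n := by
      have : x0 ≤ p := (Nat.le_ceil x0).trans (by exact_mod_cast hp1)
      nlinarith
    have h3 := hx0 n hx
    have h4 : n ^ ((3 : ℝ) / 2) ≤ 4 * (p : ℝ) ^ 3 := by
      have : n ^ ((3 : ℝ) / 2) ≤ ((4 : ℝ) ^ ((2 : ℝ) / 3) * (p : ℝ) ^ 2) ^ ((3 : ℝ) / 2) := by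
        apply Real.rpow_le_rpow hn0.le _ (by norm_num)
        have : (2 : ℝ) ≤ (4 : ℝ) ^ ((2 : ℝ) / 3) := by
          have h : (4 : ℝ) ^ ((1 : ℝ) / 2) ≤ (4 : ℝ) ^ ((2 : ℝ) / 3) :=
            Real.rpow_le_rpow_of_exponent_le (by norm_num) (by norm_num)
          have h' : (4 : ℝ) ^ ((1 : ℝ) / 2) = 2 := by
            rw [show (4 : ℝ) = 2 ^ (2 : ℝ) by norm_num, ← Real.rpow_mul (by norm_num)]
            norm_num
          linarith
        exact mul_le_mul_of_nonneg_right this (by positivity)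
      refine this.trans (le_of_eq ?_)
      rw [Real.mul_rpow (by positivity) (by positivity), ← Real.rpow_mul (by norm_num),
        ← Real.rpow_natCast, ← Real.rpow_mul (by positivity), ← Real.rpow_natCast]
      norm_num
    rw [Real.rpow_sub hn0]
    have h5 : 0 < n ^ δ := Real.rpow_pos_of_pos hn0 _
    have h6 : 0 < n ^ ((3 : ℝ) / 2) := Real.rpow_pos_of_pos hn0 _
    rw [← mul_div_assoc, div_lt_iff₀ h5]
    have h7 : K * n ^ ((3 : ℝ) / 2) ≤ |K| * n ^ ((3 : ℝ) / 2) :=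
      mul_le_mul_of_nonneg_right (le_abs_self K) h6.le
    have h8 : 0 < (p : ℝ) ^ 3 := by positivity
    nlinarith [abs_nonneg K]

end Pool.Agent.Results.MP_47a88a_co.LowerBound
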